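import Pool.Agent.MWGN.StmtsA
import Pool.Agent.Helper77_MWF.CTT
import Pool.Agent.Helper27_MWF.POW
import Pool.Agent.Helper42_MWF.SIM

/-!
# Squad MWGN, row WCV: the core conditions and the tail conditions are kept
-/

set_option autoImplicit false

namespace Pool.Agent.MWGN.H6

open Pool.Agent.Helper14_MV Pool.Agent.Helper2_MV
open Pool.Agent.MWK (pre Gw)
open Pool.Agent.MWF (Ap gaml)

theorem ctt : Pool.Agent.MWF.CttStmt := Pool.Agent.MWF.H77.ctt Pool.Agent.MWF.H27.pow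

theorem sim : Pool.Agent.MWF.SimStmt :=
  Pool.Agent.MWF.H42.sim Pool.Agent.MWF.H27.pow ctt

theorem two {β : FIC} (hg : Gw β) {w w' : List ℕ} (h : RR β w w') (c : ℕ)
    (hc : 2 ≤ w.count c) : 2 ≤ w'.count c := by
  have h1 : c ∈ w' := (ctt β hg.ap w w' h c).1 (List.count_pos_iff.1 (by omega))
  have h2 : 0 < w'.count c := List.count_pos_iff.2 h1
  have h3 : w'.count c ≠ 1 := fun h3 => by
    have := sim β hg.ap w' w h.symm c h3
    omega
  omega

theorem nn_self (w : List ℕ) (c : ℕ) : nn w c c = 0 := by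
  unfold nn
  exact List.count_eq_zero.2 (Pool.Agent.MWK.not_mem_pre w c)

theorem nsab {ν : Nm} {m : ℕ} (h : Ns ν m) : ν.b ≠ ν.a := by
  unfold Ns at h
  intro he
  rw [List.nodup_cons] at h
  apply h.1
  rw [← he]
  exact List.mem_cons_self

theorem nsbS {ν : Nm} {m : ℕ} (h : Ns ν m) {i : ℕ} (hi : i ≤ m) : ν.b ≠ ν.S i := by
  unfold Ns at h
  intro he
  rw [List.nodup_cons, List.nodup_cons] at h
  apply h.2.1
  rw [he]
  exact List.mem_map_of_mem (List.mem_range.2 (by omega))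

theorem nsSS {ν : Nm} {m : ℕ} (h : Ns ν m) {i j : ℕ} (hi : i ≤ m) (hj : j ≤ m) (hij : i ≠ j) :
    ν.S i ≠ ν.S j := by
  unfold Ns at h
  intro he
  rw [List.nodup_cons, List.nodup_cons] at h
  exact hij (List.inj_on_of_nodup_map h.2.2 (List.mem_range.2 (by omega))
    (List.mem_range.2 (by omega)) he)

theorem wcv (holr : OlrStmt) (htlr : TlrStmt) : WcvStmt := by
  intro β hg hE hP hA ν τ m nc hns hnc w w' h
  have hs : ∀ c, w.count c = 1 → w'.count c = 1 := sim β hg.ap w w' h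
  have h2 : ∀ c, 2 ≤ w.count c → 2 ≤ w'.count c := two hg h
  have hO := holr β hg hE w w' h
  have hT := htlr β hg hE hP w w' h
  constructor
  · intro hc
    have hne : ∀ c s, 2 ≤ w.count c → w.count s = 1 → c ≠ s := by
      intro c s h1 h2 he
      rw [he] at h1
      omega
    refine
      { sa := hs _ hc.sa
        sb := hs _ hc.sb
        ob := (hO ν.b ν.a hc.sa (nsab hns)).1.1 hc.ob
        x2 := h2 _ hc.x2
        y2 := h2 _ hc.y2
        xa := (hO ν.x ν.a hc.sa (hne _ _ hc.x2 hc.sa)).2.1.1 hc.xa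
        ya := (hO ν.y ν.a hc.sa (hne _ _ hc.y2 hc.sa)).2.1.1 hc.ya
        xb := (hO ν.x ν.b hc.sb (hne _ _ hc.x2 hc.sb)).2.2.1 hc.xb
        yb := (hO ν.y ν.b hc.sb (hne _ _ hc.y2 hc.sb)).2.2.1 hc.yb
        l2 := fun i hi => h2 _ (hc.l2 i hi)
        l0 := fun i hi => (hO _ ν.a hc.sa (hne _ _ (hc.l2 i hi) hc.sa)).1.1 (hc.l0 i hi)
        lb := fun i hi => (hO _ ν.b hc.sb (hne _ _ (hc.l2 i hi) hc.sb)).2.1.1 (hc.lb i hi)
        c2 := fun i hi => h2 _ (hc.c2 i hi)
        c0 := fun i hi => (hO _ ν.a hc.sa (hne _ _ (hc.c2 i hi) hc.sa)).1.1 (hc.c0 i hi)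
        cb := fun i hi => (hO _ ν.b hc.sb (hne _ _ (hc.c2 i hi) hc.sb)).2.2.1 (hc.cb i hi)
        xl := fun i hi => (hT ν.x (ν.L i) ν.b hc.sb hc.x2 (hc.l2 i hi) (hc.lb i hi) hc.xb).1 hA
          (hc.xl i hi)
        yl := fun i hi => (hT ν.y (ν.L i) ν.b hc.sb hc.y2 (hc.l2 i hi) (hc.lb i hi) hc.yb).2.2
          ν.a hc.sa hc.ya (hc.l0 i hi) (hc.yl i hi)
        cl0 := fun i hi j hj => (hT (ν.C i) (ν.L j) ν.b hc.sb (hc.c2 i hi)
          (hc.l2 j (by omega)) (hc.lb j (by omega)) (hc.cb i hi)).2.1 (hc.cl0 i hi j hj)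
        cl1 := fun i hi j hij hj => (hT (ν.C i) (ν.L j) ν.b hc.sb (hc.c2 i hi)
          (hc.l2 j hj) (hc.lb j hj) (hc.cb i hi)).1 hA (hc.cl1 i hi j hij hj) }
  · intro hc
    refine
      { ss := fun i hi => hs _ (hc.ss i hi)
        oS := fun i hi => ?_
        os := fun i j hi hj hij => ?_
        lt := fun i hi => ?_
        lT := fun i j hi hj hij => ?_ }
    · have h0 := hc.oS i hi
      have h1 : ν.S i ∉ pre w ν.b := List.count_eq_zero.1 h0
      have hw : ν.S i ∈ w := List.count_pos_iff.1 (by rw [hc.ss i hi]; exact Nat.one_pos)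
      have hbS := nsbS hns hi
      have h3 : ν.b ∈ pre w (ν.S i) :=
        (Pool.Agent.MWK.pre_total hw (Ne.symm hbS)).resolve_left h1
      have h4 : nn w ν.b (ν.S i) ≠ 0 := fun h4 => (List.count_eq_zero.1 h4) h3
      have h5 : nn w' ν.b (ν.S i) ≠ 0 := fun h5 =>
        h4 ((hO ν.b (ν.S i) (hc.ss i hi) hbS).1.2 h5)
      have h6 : ν.b ∈ pre w' (ν.S i) := List.count_pos_iff.1 (Nat.pos_of_ne_zero h5)
      exact List.count_eq_zero.2 (Pool.Agent.MWK.pre_asymm h6)
    · have hne : i ≠ j := by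
        intro he
        rw [he] at hij
        exact Pool.Agent.MWK.not_mem_pre τ j hij
      exact (hO (ν.S j) (ν.S i) (hc.ss i hi) (nsSS hns hj hi (Ne.symm hne))).1.1
        (hc.os i j hi hj hij)
    · have h1 := hc.lt i hi
      have hne : ν.L i ≠ ν.S i := by
        intro he
        rw [he, nn_self] at h1
        omega
      exact (hO (ν.L i) (ν.S i) (hc.ss i hi) hne).2.1.1 h1
    · have h1 := hc.lT i j hi hj hij
      have hne : ν.L i ≠ ν.S j := by
        intro he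
        rw [he, nn_self, hc.ss j hj] at h1
        omega
      exact (hO (ν.L i) (ν.S j) (hc.ss j hj) hne).2.2.1 h1

end Pool.Agent.MWGN.H6
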